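import Pool.Agent.N640.WR.Stm

set_option autoImplicit false

/-!
Project WR (helper640), part FRZ (helper152): translation to the chromatic index.
-/

namespace Pool.Agent.N152.WR

open Finset SimpleGraph Pool.Agent.X76.Wr Pool.Agent.N640.WR

/-- the graph of the frozen statement -/
theorem fromRel_eq {V W : Type} (G : SimpleGraph V) (G' : SimpleGraph W) :
    SimpleGraph.fromRel (fun p q : V × W =>
            (p.1 = q.1 ∧ G'.Adj p.2 q.2) ∨
            (G.Adj p.1 q.1 ∧ ∃ φ : G' ≃g G', φ p.2 = q.2)) = wreath G G' := by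
  ext p q
  rw [SimpleGraph.fromRel_adj]
  constructor
  · rintro ⟨-, h | h⟩
    · exact h
    · have h' : (wreath G G').Adj q p := h
      exact h'.symm
  · intro h
    exact ⟨(wreath G G').ne_of_adj h, Or.inl h⟩

/-- from colourings of `Sym2` to `EC` -/
theorem ec_of {U : Type} (H : SimpleGraph U) (k : ℕ) (c : Sym2 U → Fin k)
    (hc : ∀ e ∈ H.edgeSet, ∀ f ∈ H.edgeSet, e ≠ f → (∃ v, v ∈ e ∧ v ∈ f) → c e ≠ c f) : EC k H := by
  refine ⟨fun x y => (c s(x, y)).val, fun u v huv => ⟨?_, (c s(u, v)).2, ?_⟩⟩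
  · show (c s(u, v)).val = (c s(v, u)).val
    rw [Sym2.eq_swap]
  · intro w huw hvw heq
    refine hc s(u, v) huv s(u, w) huw (fun h => hvw ?_) ⟨u, Sym2.mem_mk_left u v, Sym2.mem_mk_left u w⟩
      (Fin.ext heq)
    exact Sym2.congr_right.1 h

/-- from `EC` to colourings of `Sym2` -/
theorem of_ec {U : Type} (H : SimpleGraph U) (k : ℕ) (hk : 0 < k) (h : EC k H) :
    ∃ c : Sym2 U → Fin k, ∀ e ∈ H.edgeSet, ∀ f ∈ H.edgeSet,
      e ≠ f → (∃ v, v ∈ e ∧ v ∈ f) → c e ≠ c f := by
  classical
  obtain ⟨c', hc'⟩ := h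
  obtain ⟨N, hN⟩ : ∃ N : Sym2 U → ℕ, ∀ u v, N s(u, v) = if H.Adj u v then c' u v else 0 := by
    refine ⟨Sym2.lift ⟨fun u v => if H.Adj u v then c' u v else 0, ?_⟩, fun u v => rfl⟩
    intro u v
    show (if H.Adj u v then c' u v else 0) = (if H.Adj v u then c' v u else 0)
    by_cases huv : H.Adj u v
    · rw [if_pos huv, if_pos huv.symm, (hc' u v huv).1]
    · rw [if_neg huv, if_neg fun h => huv h.symm]
  have hNk : ∀ e, N e < k := by
    intro e
    induction e using Sym2.ind with
    | h u v =>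
      rw [hN]
      split_ifs with huv
      · exact (hc' u v huv).2.1
      · exact hk
  refine ⟨fun e => ⟨N e, hNk e⟩, ?_⟩
  rintro e he f hf hef ⟨v, hve, hvf⟩ heq
  obtain ⟨a, rfl⟩ := Sym2.mem_iff_exists.1 hve
  obtain ⟨b, rfl⟩ := Sym2.mem_iff_exists.1 hvf
  rw [SimpleGraph.mem_edgeSet] at he hf
  have h1 := congrArg Fin.val heq
  have h2 : N s(v, a) = N s(v, b) := h1
  rw [hN, hN, if_pos he, if_pos hf] at h2
  exact (hc' v a he).2.2 b hf (fun hab => hef (by rw [hab])) h2

/-- lower bound -/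
theorem lower {U : Type} [Fintype U] (H : SimpleGraph U) [DecidableRel H.Adj] (k : ℕ) (h : EC k H) :
    H.maxDegree ≤ k := by
  classical
  obtain ⟨c', hc'⟩ := h
  apply SimpleGraph.maxDegree_le_of_forall_degree_le
  intro u
  rw [← SimpleGraph.card_neighborFinset_eq_degree, ← Finset.card_range k]
  apply Finset.card_le_card_of_injOn (fun v => c' u v)
  · intro v hv
    have hv' : H.Adj u v := by simpa using hv
    exact Finset.mem_coe.2 (Finset.mem_range.2 (hc' u v hv').2.1)
  · intro v hv w hw heq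
    have hv' : H.Adj u v := by simpa using hv
    have hw' : H.Adj u w := by simpa using hw
    by_contra hne
    exact (hc' u v hv').2.2 w hw' hne heq

open Classical in
theorem frz_ : Pool.Agent.N640.WR.S_FRZ := by
  intro hmain V W _ _ G G' H hH hE hG
  rw [fromRel_eq] at hH
  subst hH
  obtain ⟨e0, he0⟩ := hE
  induction e0 using Sym2.ind with
  | h x0 y0 =>
  rw [SimpleGraph.mem_edgeSet] at he0
  have hd1 : 1 ≤ G.maxDegree := by
    refine le_trans ?_ (SimpleGraph.degree_le_maxDegree G x0)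
    exact (SimpleGraph.degree_pos_iff_exists_adj G x0).2 ⟨y0, he0⟩
  have hEC : EC G.maxDegree G := by
    have hne : {k : ℕ | ∃ c : Sym2 V → Fin k, ∀ e ∈ G.edgeSet, ∀ f ∈ G.edgeSet,
              e ≠ f → (∃ v, v ∈ e ∧ v ∈ f) → c e ≠ c f}.Nonempty := by
      by_contra hne
      rw [Set.not_nonempty_iff_eq_empty] at hne
      rw [hne, Nat.sInf_empty] at hG
      omega
    have hmem := Nat.sInf_mem hne
    rw [hG] at hmem
    obtain ⟨c, hc⟩ := hmem
    exact ec_of G _ c hc
  apply le_antisymm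
  · -- upper bound
    apply Nat.sInf_le
    rcases isEmpty_or_nonempty W with hW | ⟨⟨w0⟩⟩
    · have hk : ∃ c : Sym2 (V × W) → Fin (wreath G G').maxDegree, True := by
        refine ⟨fun e => ?_, trivial⟩
        exfalso
        induction e using Sym2.ind with
        | h u v => exact hW.false u.2
      obtain ⟨c, -⟩ := hk
      refine ⟨c, fun e => ?_⟩
      exfalso
      induction e using Sym2.ind with
      | h u v => exact hW.false u.2
    · have hD : ∀ w, G.maxDegree * orb G' w + G'.degree w ≤ (wreath G G').maxDegree := fun w =>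
        max_bound G G' x0 w
      have hEC' := hmain V W G G' G.maxDegree (wreath G G').maxDegree hd1 hEC hD
      have hpos : 0 < (wreath G G').maxDegree := by
        have hadj : (wreath G G').Adj (x0, w0) (y0, w0) :=
          Or.inr ⟨he0, SimpleGraph.Iso.refl, rfl⟩
        refine lt_of_lt_of_le ?_ (SimpleGraph.degree_le_maxDegree (wreath G G') (x0, w0))
        exact (SimpleGraph.degree_pos_iff_exists_adj _ _).2 ⟨_, hadj⟩
      exact of_ec _ _ hpos hEC'
  · -- lower bound
    by_cases hne : {k : ℕ | ∃ c : Sym2 (V × W) → Fin k, ∀ e ∈ (wreath G G').edgeSet,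
        ∀ f ∈ (wreath G G').edgeSet, e ≠ f → (∃ v, v ∈ e ∧ v ∈ f) → c e ≠ c f}.Nonempty
    · obtain ⟨c, hc⟩ := Nat.sInf_mem hne
      exact lower _ _ (ec_of _ _ c hc)
    · exfalso
      apply hne
      -- an injective colouring
      refine ⟨Fintype.card (Sym2 (V × W)), Fintype.equivFin _, ?_⟩
      intro e _ f _ hef _ heq
      exact hef ((Fintype.equivFin _).injective heq)

end Pool.Agent.N152.WR
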